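import Pool.Agent.H629.TA.All

set_option autoImplicit false

/-!
MP_751612_pr, Q1 (full answer: yes).  In the instantaneous linear preferential attachment model with
`m ≥ 2` and `δ > 0` the number `T_n` of triangles satisfies
`d_W((T_n - E T_n) / √Var T_n, N(0,1)) ≤ C / √(log n)` for all large `n`.

The process is given by its law (`IsPA`); it exists, and the statement holds for every realisation.
In addition `|√Var T_n - √E T_n| ≤ C` and `log n ≤ C · E T_n`.

Proof: one-step formulas for `S2 = ∑ x_a²`, `WW = ∑_{a<b} M_ab x_a x_b` (`x_a = deg a + δ`) and bounds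
for third and fourth order functionals; recursions show that the conditional mean
`λ_k ≈ m (m-1) WW_k / L_k²` of the number `ξ_k` of new triangles satisfies
`∑_k E |λ_k - E λ_k| < ∞`, `E λ_k ≍ 1/k` and `∑_k E ξ_k (ξ_k - 1) < ∞`; hence `T_n` and a Poisson
variable with mean `E T_n` differ by `O(1)` in Wasserstein distance (telescoping over the steps), and
the Poisson variable is compared with the normal law by the Stein equation for Lipschitz functions.
-/

open Finset MeasureTheory ProbabilityTheory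
open scoped ENNReal

namespace Pool.Agent.Results.MP_751612_pr.TriangleCount

open Pool.Agent.H629.TA

universe u

theorem result :
    (∀ (m : ℕ) (δ : ℝ), 2 ≤ m → 0 < δ → ∃ (Ω : Type) (_ : MeasurableSpace Ω) (P : Measure Ω)
      (J : ℕ → Fin m → Ω → ℕ), IsPA m δ P J) ∧
    ∀ m : ℕ, 2 ≤ m → ∀ δ : ℝ, 0 < δ → ∃ C : ℝ, 0 < C ∧ ∃ n₀ : ℕ,
      ∀ (Ω : Type u) [MeasurableSpace Ω] (P : Measure Ω) (J : ℕ → Fin m → Ω → ℕ), IsPA m δ P J →
      ∀ n : ℕ, n₀ ≤ n →
        0 < Var[T J n; P] ∧
        dW (P.map fun ω => (T J n ω - ∫ ω', T J n ω' ∂P) / Real.sqrt (Var[T J n; P]))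
          (gaussianReal 0 1) ≤ ENNReal.ofReal (C / Real.sqrt (Real.log n)) ∧
        |Real.sqrt (Var[T J n; P]) - Real.sqrt (∫ ω, T J n ω ∂P)| ≤ C ∧
        Real.log n ≤ C * ∫ ω, T J n ω ∂P :=
  ⟨fun m δ hm hδ => a_EI m δ (by omega) hδ,
    fun m hm δ hδ => main_of.{u} a_MB a_TD a_FI a_E4 m hm δ hδ⟩

end Pool.Agent.Results.MP_751612_pr.TriangleCount
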